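import Mathlib
import Pool.Agent.Q304.FP.Fam

set_option autoImplicit false

/-!
# Closing a sequence of point masses under few filter limits
-/

open Filter Topology Cardinal Set

namespace Pool.Agent.Q304.UU

/-- An injective family of free ultrafilters indexed by the sets of sets of naturals. -/
lemma exists_inj : ∃ u : Set (Set ℕ) → Ultrafilter ℕ,
    Function.Injective u ∧ ∀ H, (u H : Filter ℕ) ≤ cofinite := by
  classical
  obtain ⟨B, hB⟩ := FP.exists_indep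
  have key : ∀ H : Set (Set ℕ), ∃ U : Ultrafilter ℕ, (U : Filter ℕ) ≤ cofinite ∧
      ∀ a, (B a ∈ U ↔ a ∈ H) := by
    intro H
    let f : Set ℕ → Set ℕ := fun a => if a ∈ H then B a else (B a)ᶜ
    have hne : (cofinite ⊓ ⨅ a, 𝓟 (f a)).NeBot := by
      rw [Filter.inf_neBot_iff]
      intro s hs t ht
      rw [Filter.mem_iInf_finite] at ht
      obtain ⟨T, hT⟩ := ht
      rw [Filter.iInf_principal_finset, Filter.mem_principal] at hT
      have h1 := hB T (fun _ _ => Set.mem_univ _) (fun a => decide (a ∈ H))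
      obtain ⟨n, ⟨_, hn⟩, hns⟩ := (h1.and_eventually hs).exists
      refine ⟨n, hns, hT ?_⟩
      simp only [Set.mem_iInter]
      intro a ha
      have h2 := hn a ha
      by_cases haH : a ∈ H
      · simp only [f, if_pos haH]
        exact h2.mpr (by simpa using haH)
      · simp only [f, if_neg haH]
        intro h3
        have := h2.mp h3
        simp at this
        exact haH this
    obtain ⟨U, hU⟩ := Ultrafilter.exists_le (cofinite ⊓ ⨅ a, 𝓟 (f a))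
    refine ⟨U, hU.trans inf_le_left, fun a => ?_⟩
    have h1 : f a ∈ U := by
      apply hU
      apply Filter.mem_inf_of_right
      exact Filter.mem_iInf_of_mem a (Filter.mem_principal_self _)
    by_cases haH : a ∈ H
    · simp only [f, if_pos haH] at h1
      exact ⟨fun _ => haH, fun _ => h1⟩
    · simp only [f, if_neg haH] at h1
      exact ⟨fun h => absurd h (Ultrafilter.compl_mem_iff_notMem.mp h1), fun h => absurd h haH⟩
  choose u hu1 hu2 using key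
  refine ⟨u, ?_, hu1⟩
  intro H H' hHH
  ext a
  rw [← hu2 H a, hHH, hu2 H' a]

section
variable (𝕜 : Type) [RCLike 𝕜] (𝓕 : Set (Filter ℕ))

/-- operations. -/
abbrev Op := ℕ ⊕ ((𝕜 × 𝕜) ⊕ 𝓕)

/-- arities. -/
def Ar : Op 𝕜 𝓕 → Type
  | Sum.inl _ => Empty
  | Sum.inr (Sum.inl _) => Bool
  | Sum.inr (Sum.inr _) => ℕ

/-- the point mass at `n`. -/
noncomputable def dl (n : ℕ) : Set ℕ → 𝕜 := by
  classical exact fun A => if n ∈ A then 1 else 0

open Classical in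
/-- one step of the evaluation. -/
noncomputable def stp : (Σ a : Op 𝕜 𝓕, Ar 𝕜 𝓕 a → (Set ℕ → 𝕜)) → (Set ℕ → 𝕜)
  | ⟨Sum.inl n, _⟩ => dl 𝕜 n
  | ⟨Sum.inr (Sum.inl ab), g⟩ => ab.1 • g true + ab.2 • g false
  | ⟨Sum.inr (Sum.inr F), g⟩ =>
      if h : ∃ y, Tendsto (fun n : ℕ => g n) (F : Filter ℕ) (𝓝 y) then h.choose else 0

/-- the value of a code. -/
noncomputable def ev : WType (Ar 𝕜 𝓕) → (Set ℕ → 𝕜) := WType.elim _ (stp 𝕜 𝓕)

lemma ev_mk (a : Op 𝕜 𝓕) (f : Ar 𝕜 𝓕 a → WType (Ar 𝕜 𝓕)) :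
    ev 𝕜 𝓕 ⟨a, f⟩ = stp 𝕜 𝓕 ⟨a, fun b => ev 𝕜 𝓕 (f b)⟩ := rfl

lemma ev_base (n : ℕ) : dl 𝕜 n ∈ Set.range (ev 𝕜 𝓕) :=
  ⟨⟨Sum.inl n, fun e => nomatch e⟩, rfl⟩

lemma ev_lin (a b : 𝕜) {x y : Set ℕ → 𝕜} (hx : x ∈ Set.range (ev 𝕜 𝓕))
    (hy : y ∈ Set.range (ev 𝕜 𝓕)) : a • x + b • y ∈ Set.range (ev 𝕜 𝓕) := by
  obtain ⟨cx, rfl⟩ := hx
  obtain ⟨cy, rfl⟩ := hy
  refine ⟨⟨Sum.inr (Sum.inl (a, b)), fun e : Bool => if e = true then cx else cy⟩, ?_⟩
  rw [ev_mk]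
  simp [stp]

lemma ev_lim {F : Filter ℕ} [F.NeBot] (hF : F ∈ 𝓕) {x : ℕ → (Set ℕ → 𝕜)} (hx : ∀ n, x n ∈ Set.range (ev 𝕜 𝓕))
    {y : Set ℕ → 𝕜} (hy : Tendsto x F (𝓝 y)) : y ∈ Set.range (ev 𝕜 𝓕) := by
  choose c hc using hx
  refine ⟨⟨Sum.inr (Sum.inr ⟨F, hF⟩), fun n : ℕ => c n⟩, ?_⟩
  rw [ev_mk]
  have h0 : ∃ y, Tendsto (fun n : ℕ => ev 𝕜 𝓕 (c n)) F (𝓝 y) := ⟨y, by simpa only [hc] using hy⟩
  have h1 : stp 𝕜 𝓕 ⟨Sum.inr (Sum.inr ⟨F, hF⟩), fun n : ℕ => ev 𝕜 𝓕 (c n)⟩ = h0.choose := by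
    simp only [stp]
    exact dif_pos h0
  refine h1.trans ?_
  have h2 := h0.choose_spec
  have h3 : Tendsto (fun n : ℕ => ev 𝕜 𝓕 (c n)) F (𝓝 y) := by simpa only [hc] using hy
  exact tendsto_nhds_unique h2 h3

/-- The space. -/
noncomputable def Sp : Submodule 𝕜 (Set ℕ → 𝕜) where
  carrier := Set.range (ev 𝕜 𝓕)
  add_mem' := by
    intro x y hx hy
    have := ev_lin 𝕜 𝓕 1 1 hx hy
    simpa using this
  zero_mem' := by
    have := ev_lin 𝕜 𝓕 0 0 (ev_base 𝕜 𝓕 0) (ev_base 𝕜 𝓕 0)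
    simpa using this
  smul_mem' := by
    intro c x hx
    have := ev_lin 𝕜 𝓕 c 0 hx hx
    simpa using this

lemma mk_field_le : #𝕜 ≤ 𝔠 := by
  have h : Function.Injective (fun z : 𝕜 => (RCLike.re z, RCLike.im z)) := by
    intro z w h
    simp only [Prod.mk.injEq] at h
    exact RCLike.ext h.1 h.2
  refine (Cardinal.mk_le_of_injective h).trans ?_
  simp [Cardinal.mk_prod, Cardinal.mk_real]

lemma mk_Sp_le (h𝓕 : #𝓕 ≤ 𝔠) : #(Sp 𝕜 𝓕) ≤ 𝔠 := by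
  have h1 : #(WType (Ar 𝕜 𝓕)) ≤ 𝔠 := by
    apply WType.cardinalMk_le_of_le
    have hop : #(Op 𝕜 𝓕) ≤ 𝔠 := by
      simp only [Cardinal.mk_sum, Cardinal.lift_id, Cardinal.mk_prod]
      have h2 := mk_field_le 𝕜
      calc #ℕ + (#𝕜 * #𝕜 + #𝓕) ≤ 𝔠 + (𝔠 * 𝔠 + 𝔠) := by
            gcongr
            exact (Cardinal.mk_nat.le.trans Cardinal.aleph0_le_continuum)
        _ = 𝔠 := by simp
    calc Cardinal.sum (fun a : Op 𝕜 𝓕 => 𝔠 ^ #(Ar 𝕜 𝓕 a)) ≤ Cardinal.sum (fun _ : Op 𝕜 𝓕 => 𝔠) := by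
          apply Cardinal.sum_le_sum
          rintro (n | ab | F)
          · change 𝔠 ^ #Empty ≤ 𝔠
            simp [Cardinal.one_le_iff_ne_zero, Cardinal.continuum_ne_zero]
          · change 𝔠 ^ #Bool ≤ 𝔠
            rw [Cardinal.mk_bool]
            exact_mod_cast (Cardinal.power_nat_le (n := 2) Cardinal.aleph0_le_continuum)
          · change 𝔠 ^ #ℕ ≤ 𝔠
            rw [Cardinal.mk_nat, Cardinal.continuum_power_aleph0]
      _ = #(Op 𝕜 𝓕) * 𝔠 := by simp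
      _ ≤ 𝔠 * 𝔠 := by gcongr
      _ = 𝔠 := by simp
  have h2 : #(Sp 𝕜 𝓕) ≤ #(WType (Ar 𝕜 𝓕)) := by
    change #(Set.range (ev 𝕜 𝓕)) ≤ _
    exact Cardinal.mk_range_le
  exact h2.trans h1

/-- the point mass of an ultrafilter -/
noncomputable def dU (V : Ultrafilter ℕ) : Set ℕ → 𝕜 := by
  classical exact fun A => if A ∈ V then 1 else 0

lemma dU_inj : Function.Injective (dU 𝕜) := by
  intro V W h
  apply Ultrafilter.coe_injective
  ext A
  have := congrFun h A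
  simp only [dU] at this
  by_cases h1 : A ∈ V <;> by_cases h2 : A ∈ W <;> simp [h1, h2] at this ⊢

lemma tendsto_dl (V : Ultrafilter ℕ) : Tendsto (dl 𝕜) V (𝓝 (dU 𝕜 V)) := by
  rw [tendsto_pi_nhds]
  intro A
  by_cases h : A ∈ V
  · apply tendsto_const_nhds.congr'
    filter_upwards [h] with n hn
    simp [dl, dU, h, hn]
  · apply tendsto_const_nhds.congr'
    filter_upwards [Ultrafilter.compl_mem_iff_notMem.mpr h] with n hn
    have : n ∉ A := hn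
    simp [dl, dU, h, this]

end

end Pool.Agent.Q304.UU
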